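import Pool.Agent.V8H80.Main
import Pool.Agent.V8H80.OP
import Pool.Agent.Q175.MW.LiftK

/-!
MP_cbfcf7_gt, Q1, in full: the Milnor-Wood inequality for area preserving actions of surface
groups on the plane by homeomorphisms.

`PlaneLift` (from the library `PlaneEuler`) is the universal central extension of the group of
orientation preserving homeomorphisms of the plane: homeomorphisms `f` with a continuous choice,
over all ordered pairs `p ≠ q`, of an argument of `(f q - f p) / (q - p)`.  `HasEulerNumber ρ n`
says that the standard generators have lifts and that for all lifts the product of the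
commutators `[A_i, B_i]` is the central element `central n`.

The proof: an orientation preserving homeomorphism of the plane is a limit, uniform on compact
sets, of diffeomorphisms (`V8H80`, polygonal approximation of the image of a fine grid); if it
preserves area the diffeomorphisms can be corrected to be area preserving (`V8H60.Area`); and the
inequality holds for limits of area preserving diffeomorphisms (the library `Q175.MW`).
-/

set_option autoImplicit false

open Filter Topology
open scoped commutatorElement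

namespace Pool.Agent.Results.MP_cbfcf7_gt.AreaMilnorWood

open Pool.Agent.Helper11.PlaneEuler Pool.Agent.Q175.MW

/-- `f` preserves orientation: for some point `p` the image under `f` of the unit circle around `p`,
run once counterclockwise, winds exactly once counterclockwise around `f p`, that is, the vector
`f (p + exp (i θ)) - f p` has a continuous argument `φ θ` with `φ (θ + 2 π) = φ θ + 2 π` -/
def OrientationPreserving (f : ℂ ≃ₜ ℂ) : Prop :=
  ∃ (p : ℂ) (φ : ℝ → ℝ), Continuous φ ∧
    (∀ θ : ℝ, f (p + Complex.exp (θ * Complex.I)) - f p =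
      (‖f (p + Complex.exp (θ * Complex.I)) - f p‖ : ℂ) * Complex.exp (φ θ * Complex.I)) ∧
    ∀ θ : ℝ, φ (θ + 2 * Real.pi) = φ θ + 2 * Real.pi

theorem OrientationPreserving.ori {f : ℂ ≃ₜ ℂ} (hf : OrientationPreserving f) :
    ∃ F : PlaneLift, F.homeo = f := Pool.Agent.V8H80.ori_of_orientPres hf

/-- area and orientation preserving homeomorphisms are limits, uniform on compact sets, of area
preserving diffeomorphisms -/
theorem apprK {f : ℂ ≃ₜ ℂ} (h1 : MeasureTheory.MeasurePreserving (⇑f))
    (h2 : OrientationPreserving f) : ApprK f := by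
  intro r ε hε
  obtain ⟨h, ⟨h3, h4, h5⟩, h6⟩ := Pool.Agent.V8H80.area_limit f
    h2.ori h1 r ε hε
  exact ⟨h.toEquiv, ⟨h3, h4, h5⟩, h6⟩

theorem lift_rel {G : Type} [Group G] (g : ℕ) (f : Fin g ⊕ Fin g → G) :
    FreeGroup.lift f (surfaceRelator g) =
      (List.ofFn fun i : Fin g => ⁅f (Sum.inl i), f (Sum.inr i)⁆).prod := by
  unfold surfaceRelator
  rw [map_list_prod, List.map_ofFn]
  congr 2
  funext i
  simp [map_commutatorElement]

theorem central_inj {m n : ℤ} (h : central m = central n) : m = n := by
  have h2 : (central m).angle ⟨(0, 1), by simp⟩ = (central n).angle ⟨(0, 1), by simp⟩ := by rw [h]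
  have h3 : 2 * Real.pi * (m : ℝ) = 2 * Real.pi * (n : ℝ) := h2
  have h4 : (m : ℝ) = n := mul_left_cancel₀ (by positivity) h3
  exact_mod_cast h4

/-- forgetting the angle -/
def toHomeo : PlaneLift →* (ℂ ≃ₜ ℂ) where
  toFun F := F.homeo
  map_one' := rfl
  map_mul' _ _ := rfl

/-- if the generators have lifts then there is an Euler number -/
theorem exists_euler {g : ℕ} (ρ : SurfaceGroup g →* (ℂ ≃ₜ ℂ))
    (h : ∀ s, ∃ F : PlaneLift, F.homeo = ρ (PresentedGroup.of s)) :
    ∃ n : ℤ, HasEulerNumber ρ n := by
  choose F hF using h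
  have h1 : toHomeo (FreeGroup.lift F (surfaceRelator g)) = 1 := by
    have e1 : toHomeo.comp (FreeGroup.lift F) = ρ.comp (PresentedGroup.mk _) := by
      ext1 s
      simp only [MonoidHom.comp_apply, FreeGroup.lift_apply_of]
      exact hF s
    have e2 := congrArg (fun φ : FreeGroup (Fin g ⊕ Fin g) →* (ℂ ≃ₜ ℂ) =>
      φ (surfaceRelator g)) e1
    simp only [MonoidHom.comp_apply] at e2
    rw [e2]
    have e3 : (PresentedGroup.mk {surfaceRelator g}) (surfaceRelator g) = 1 :=
      PresentedGroup.one_of_mem rfl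
    rw [e3, map_one]
  obtain ⟨n, hn⟩ := lift_unique (FreeGroup.lift F (surfaceRelator g)) 1 h1
  rw [mul_one, lift_rel] at hn
  refine ⟨n, ⟨fun i => F (Sum.inl i), fun i => F (Sum.inr i), fun i => hF _, fun i => hF _⟩, ?_⟩
  intro A B hA hB
  rw [← hn]
  congr 2
  funext i
  obtain ⟨k, hk⟩ := lift_unique (A i) (F (Sum.inl i)) ((hA i).trans (hF _).symm)
  obtain ⟨l, hl⟩ := lift_unique (B i) (F (Sum.inr i)) ((hB i).trans (hF _).symm)
  rw [hk, hl, comm_central']

theorem bound_of_euler {g : ℕ} (hg : 1 ≤ g) (ρ : SurfaceGroup g →* (ℂ ≃ₜ ℂ))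
    (hρ : ∀ s, ApprK (ρ (PresentedGroup.of s))) (n : ℤ) (hn : HasEulerNumber ρ n) :
    |n| ≤ 2 * (g : ℤ) - 2 := by
  obtain ⟨k, rfl⟩ : ∃ k, g = k + 1 := ⟨g - 1, by omega⟩
  obtain ⟨⟨A, B, hA, hB⟩, h⟩ := hn
  have h1 := h A B hA hB
  have h2 := milnor_woodK k (Sum.elim A B) (by
    rintro (i | i)
    · show ApprK (A i).homeo
      rw [hA i]
      exact hρ _
    · show ApprK (B i).homeo
      rw [hB i]
      exact hρ _) n (by
    rw [lift_rel]
    exact h1)
  push_cast
  linarith

/-- The Milnor-Wood inequality for area preserving actions on the plane: every action of the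
fundamental group of the closed oriented surface of genus `g ≥ 1` on the plane by area preserving
and orientation preserving homeomorphisms has exactly one Euler number `n`, and
`|n| ≤ 2 g - 2`. -/
theorem result (g : ℕ) (hg : 1 ≤ g) (ρ : SurfaceGroup g →* (ℂ ≃ₜ ℂ))
    (hρ : ∀ γ : SurfaceGroup g, MeasureTheory.MeasurePreserving (⇑(ρ γ)) MeasureTheory.volume
      MeasureTheory.volume ∧ OrientationPreserving (ρ γ)) :
    ∃ n : ℤ, (∀ m : ℤ, HasEulerNumber ρ m ↔ m = n) ∧ |n| ≤ 2 * (g : ℤ) - 2 := by
  obtain ⟨n, hn⟩ := exists_euler ρ fun s => (hρ _).2.ori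
  refine ⟨n, fun m => ⟨fun hm => ?_, fun h => h ▸ hn⟩,
    bound_of_euler hg ρ (fun s => apprK (hρ _).1 (hρ _).2) n hn⟩
  obtain ⟨⟨A, B, hA, hB⟩, h⟩ := hm
  exact central_inj ((h A B hA hB).symm.trans (hn.2 A B hA hB))

end Pool.Agent.Results.MP_cbfcf7_gt.AreaMilnorWood
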